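import Pool.Agent.H64.EP.Targets

/-!
# Greedy covering
-/

set_option autoImplicit false

open Finset
open scoped Classical

namespace Pool.Agent.H51.EP

open Pool.Agent.H64.EP

theorem pf_GRE : T_GRE := by
  intro P Z _ _ _ A S η δ m hS hη hδ hm hbad
  have key : ∀ n : ℕ, ∃ X : Fin n → P, (∀ q, X q ∈ S) ∧
      (((univ : Finset Z).filter (fun z => ∀ q, ¬ A (X q) z)).card : ℝ) ≤
        max (δ * (Fintype.card Z : ℝ)) (Real.exp (-(n * η / 2)) * (Fintype.card Z : ℝ)) := by
    intro n
    induction n with
    | zero =>
      refine ⟨fun q => q.elim0, fun q => q.elim0, ?_⟩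
      apply le_max_of_le_right
      simp only [Nat.cast_zero, zero_mul, zero_div, neg_zero, Real.exp_zero, one_mul]
      exact_mod_cast card_filter_le _ _
    | succ n ih =>
      obtain ⟨X, hX, hU⟩ := ih
      set U := (univ : Finset Z).filter (fun z => ∀ q, ¬ A (X q) z) with hUdef
      have hcons : ∀ p : P, (univ : Finset Z).filter
          (fun z => ∀ q : Fin (n + 1), ¬ A ((Fin.cons p X : Fin (n + 1) → P) q) z) =
          U.filter (fun z => ¬ A p z) := by
        intro p
        ext z
        simp only [hUdef, mem_filter, mem_univ, true_and, Fin.forall_fin_succ, Fin.cons_zero,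
          Fin.cons_succ]
        tauto
      have hmem : ∀ p ∈ S, ∀ q : Fin (n + 1), (Fin.cons p X : Fin (n + 1) → P) q ∈ S := by
        intro p hp q
        refine Fin.cases ?_ ?_ q
        · simpa using hp
        · intro i; simpa using hX i
      rcases le_or_gt ((U.card : ℝ)) (δ * (Fintype.card Z : ℝ)) with h1 | h1
      · obtain ⟨p, hp⟩ := hS
        refine ⟨Fin.cons p X, hmem p hp, ?_⟩
        rw [hcons p]
        apply le_max_of_le_left
        refine le_trans ?_ h1
        exact_mod_cast card_filter_le _ _
      · set Bad := (univ : Finset Z).filter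
          (fun z => ((S.filter (fun p => A p z)).card : ℝ) < η * (Fintype.card P : ℝ)) with hBad
        have hPpos : (0 : ℝ) ≤ Fintype.card P := Nat.cast_nonneg _
        -- double counting
        have hdc : ∑ p ∈ S, (((U.filter (fun z => A p z)).card : ℕ) : ℝ) =
            ∑ z ∈ U, (((S.filter (fun p => A p z)).card : ℕ) : ℝ) := by
          have := Finset.sum_card_bipartiteAbove_eq_sum_card_bipartiteBelow (s := S) (t := U) A
          simp only [Finset.bipartiteAbove, Finset.bipartiteBelow] at this
          exact_mod_cast this
        have hlow : (U.card : ℝ) / 2 * (η * (Fintype.card P : ℝ)) ≤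
            ∑ z ∈ U, (((S.filter (fun p => A p z)).card : ℕ) : ℝ) := by
          have h2 : ∑ z ∈ U \ Bad, (η * (Fintype.card P : ℝ)) ≤
              ∑ z ∈ U \ Bad, (((S.filter (fun p => A p z)).card : ℕ) : ℝ) := by
            apply sum_le_sum
            intro z hz
            have hz2 := (mem_sdiff.1 hz).2
            simp only [hBad, mem_filter, mem_univ, true_and, not_lt] at hz2
            exact hz2
          have h3 : ∑ z ∈ U \ Bad, (((S.filter (fun p => A p z)).card : ℕ) : ℝ) ≤
              ∑ z ∈ U, (((S.filter (fun p => A p z)).card : ℕ) : ℝ) := by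
            apply sum_le_sum_of_subset_of_nonneg sdiff_subset
            intro z _ _
            exact Nat.cast_nonneg _
          rw [sum_const, nsmul_eq_mul] at h2
          have h4 : (U.card : ℝ) / 2 ≤ ((U \ Bad).card : ℝ) := by
            have h5 : (U.card : ℝ) ≤ ((U \ Bad).card : ℝ) + (Bad.card : ℝ) := by
              have := card_le_card_sdiff_add_card (s := U) (t := Bad)
              exact_mod_cast this
            linarith
          have h6 : (U.card : ℝ) / 2 * (η * (Fintype.card P : ℝ)) ≤
              ((U \ Bad).card : ℝ) * (η * (Fintype.card P : ℝ)) :=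
            mul_le_mul_of_nonneg_right h4 (by positivity)
          linarith
        have hex : ∃ p ∈ S, η / 2 * (U.card : ℝ) ≤ ((U.filter (fun z => A p z)).card : ℝ) := by
          by_contra hcon
          push Not at hcon
          have h2 : ∑ p ∈ S, (((U.filter (fun z => A p z)).card : ℕ) : ℝ) <
              ∑ _p ∈ S, η / 2 * (U.card : ℝ) := sum_lt_sum_of_nonempty hS hcon
          rw [sum_const, nsmul_eq_mul] at h2
          have h3 : (S.card : ℝ) ≤ (Fintype.card P : ℝ) := by exact_mod_cast card_le_univ S
          have h4 : (S.card : ℝ) * (η / 2 * (U.card : ℝ)) ≤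
              (Fintype.card P : ℝ) * (η / 2 * (U.card : ℝ)) :=
            mul_le_mul_of_nonneg_right h3 (by positivity)
          rw [hdc] at h2
          nlinarith [h2, h4, hlow]
        obtain ⟨p, hp, hpU⟩ := hex
        refine ⟨Fin.cons p X, hmem p hp, ?_⟩
        rw [hcons p]
        apply le_max_of_le_right
        have h2 : ((U.filter (fun z => A p z)).card : ℝ) +
            ((U.filter (fun z => ¬ A p z)).card : ℝ) = (U.card : ℝ) := by
          exact_mod_cast card_filter_add_card_filter_not (s := U) (fun z => A p z)
        have h3 : (U.card : ℝ) ≤ Real.exp (-(n * η / 2)) * (Fintype.card Z : ℝ) := by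
          rcases le_max_iff.1 hU with h | h
          · linarith
          · exact h
        have h4 : 1 - η / 2 ≤ Real.exp (-(η / 2)) := by
          have := Real.add_one_le_exp (-(η / 2))
          linarith
        have h5 : ((U.filter (fun z => ¬ A p z)).card : ℝ) ≤ Real.exp (-(η / 2)) * (U.card : ℝ) := by
          have h6 : (1 - η / 2) * (U.card : ℝ) ≤ Real.exp (-(η / 2)) * (U.card : ℝ) :=
            mul_le_mul_of_nonneg_right h4 (Nat.cast_nonneg _)
          linarith
        have h6 : Real.exp (-(((n + 1 : ℕ) : ℝ) * η / 2)) =
            Real.exp (-(η / 2)) * Real.exp (-(n * η / 2)) := by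
          rw [← Real.exp_add]
          congr 1
          push_cast
          ring
        rw [h6, mul_assoc]
        exact h5.trans (mul_le_mul_of_nonneg_left h3 (Real.exp_pos _).le)
  obtain ⟨X, hX, hU⟩ := key m
  refine ⟨X, hX, hU.trans (max_le le_rfl ?_)⟩
  exact mul_le_mul_of_nonneg_right hm (Nat.cast_nonneg _)

end Pool.Agent.H51.EP
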